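import Mathlib
import Pool.Agent.H177R3.FU4

set_option autoImplicit false

namespace Pool.Agent.Results.MP_27b523_gt.SmallFactors

open Pool.Agent.H177R3.FU

theorem result (κ : Cardinal.{0}) (hκ : κ.IsRegular) :
    -- (1) small factors suffice
    (∀ (Y : Type) [TopologicalSpace Y] [T1Space Y], GammaProp Y →
      (∀ S : Set Pw, Cardinal.mk S < κ → S1GO (S × Y)) →
      ∀ X : Set Pw, FinUnb κ X → S1GO ((X ∪ FinS : Set Pw) × Y)) ∧
    -- (2) small factors are necessary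
    (∀ (Y : Type) [TopologicalSpace Y], (∃ X₀ : Set Pw, FinUnb κ X₀) →
      (∀ X : Set Pw, FinUnb κ X → S1GO ((X ∪ FinS : Set Pw) × Y)) →
      ∀ S : Set Pw, Cardinal.mk S < κ → S1GO (S × Y)) ∧
    -- (3) positive answer for `κ ≤ cov(M)` and for `κ ≤ ℵ₁`
    ((LeCovM κ ∨ κ ≤ Cardinal.aleph 1) →
      ∀ (Y : Type) [TopologicalSpace Y] [T1Space Y], GammaProp Y →
      ∀ X : Set Pw, FinUnb κ X → S1GO ((X ∪ FinS : Set Pw) × Y)) := by
  refine ⟨fun Y _ _ hY hS X hX => main hY hκ hX fun S _ hSκ => HS_of_S1GO (hS S hSκ),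
    fun Y _ ⟨X₀, hX₀⟩ h S hS => converse hκ hX₀ h S hS, ?_⟩
  rintro (hc | hc) Y _ _ hY X hX
  · exact main_covM hY hκ hc hX
  · refine main hY hκ hX fun S _ hS => ?_
    have h1 : Cardinal.mk S ≤ Cardinal.aleph0 := by
      have := lt_of_lt_of_le hS hc
      rw [← Cardinal.succ_aleph0] at this
      exact Order.lt_succ_iff.1 this
    have : Countable S := Cardinal.mk_le_aleph0_iff.1 h1
    exact HS_of_countable hY

end Pool.Agent.Results.MP_27b523_gt.SmallFactors
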